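import Pool.Agent.Y808.DR.Stm3

/-! The trace retraction respects radicals of extended primes and weighted integral equations
(project of helper808; the construction of the trace and its first two properties are by
helper43). -/

set_option autoImplicit false

namespace Pool.Agent.Y177.DR.TR2

open Pool.Agent.Y808.DR
open Polynomial
open scoped nonZeroDivisors

universe u

section general

variable {A : Type u} [CommRing A] (F : ℕ → Ideal A) (hF0 : F 0 = ⊤)
  (hFm : ∀ i k, F i * F k ≤ F (i + k))

/-- the ring of polynomials with coefficients in a filtration -/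
def RR : Subring A[X] where
  carrier := {g | ∀ k, g.coeff k ∈ F k}
  mul_mem' := by
    intro g h hg hh k
    rw [Polynomial.coeff_mul]
    refine Ideal.sum_mem _ fun x hx => ?_
    have hx' := Finset.HasAntidiagonal.mem_antidiagonal.1 hx
    have := hFm x.1 x.2 (Ideal.mul_mem_mul (hg x.1) (hh x.2))
    rwa [hx'] at this
  one_mem' := by
    intro k
    rw [Polynomial.coeff_one]
    split_ifs with h
    · subst h
      rw [hF0]
      exact Submodule.mem_top
    · exact zero_mem _
  add_mem' := fun hg hh k => by
    rw [Polynomial.coeff_add]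
    exact add_mem (hg k) (hh k)
  zero_mem' := fun k => by
    rw [Polynomial.coeff_zero]
    exact zero_mem _
  neg_mem' := fun hg k => by
    rw [Polynomial.coeff_neg]
    exact neg_mem (hg k)

/-- the map to the polynomials over a bigger ring -/
noncomputable def phi (Ω : Type u) [CommRing Ω] [Algebra A Ω] : RR F hF0 hFm →+* (Polynomial Ω) :=
  (mapRingHom (algebraMap A Ω)).comp (RR F hF0 hFm).subtype

theorem int_of_W [IsDomain A] (Ω : Type u) [CommRing Ω] [Algebra A Ω] (f : A[X]) (hf : f.Monic)
    (j : ℕ) (hc : ∀ i ≤ f.natDegree, f.coeff (f.natDegree - i) ∈ F (i * j)) (ω : Ω)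
    (h0 : aeval ω f = 0) : (phi F hF0 hFm Ω).IsIntegralElem (X ^ j * C ω) := by
  have hdeg : (f.map (C : A →+* A[X])).natDegree = f.natDegree :=
    natDegree_map_eq_of_injective C_injective f
  have hcoe : (↑((scaleRoots (f.map (C : A →+* A[X])) (X ^ j)).coeffs) : Set A[X]) ⊆
      RR F hF0 hFm := by
    intro c hc'
    obtain ⟨n, -, rfl⟩ := Polynomial.mem_coeffs_iff.1 hc'
    intro k
    rw [coeff_scaleRoots, coeff_map, hdeg, ← pow_mul, coeff_C_mul, coeff_X_pow]
    split_ifs with h
    · rw [mul_one, h]
      rcases le_or_gt n f.natDegree with hn | hn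
      · have h1 := hc (f.natDegree - n) (by omega)
        rw [show f.natDegree - (f.natDegree - n) = n by omega, mul_comm] at h1
        exact h1
      · rw [coeff_eq_zero_of_natDegree_lt hn]
        exact zero_mem _
    · rw [mul_zero]
      exact zero_mem _
  refine ⟨(scaleRoots (f.map (C : A →+* A[X])) (X ^ j)).toSubring _ hcoe, ?_, ?_⟩
  · rw [monic_toSubring, monic_scaleRoots_iff]
    exact hf.map _
  · unfold phi
    rw [← eval₂_map, map_toSubring]
    have h1 : eval₂ (mapRingHom (algebraMap A Ω)) (C ω) (f.map (C : A →+* A[X])) = 0 := by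
      rw [eval₂_map]
      have h2 : (mapRingHom (algebraMap A Ω)).comp (C : A →+* A[X]) =
          (C : Ω →+* (Polynomial Ω)).comp (algebraMap A Ω) := by
        ext a
        simp
      rw [h2, ← hom_eval₂]
      have h3 : eval₂ (algebraMap A Ω) ω f = 0 := h0
      rw [h3, map_zero]
    have h2 := scaleRoots_eval₂_eq_zero (s := (X : A[X]) ^ j) (mapRingHom (algebraMap A Ω)) h1
    have h3 : (mapRingHom (algebraMap A Ω)) ((X : A[X]) ^ j) = X ^ j := by simp
    rw [h3] at h2
    exact h2

theorem W_of_int [IsDomain A] (Ω : Type u) [CommRing Ω] [Algebra A Ω]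
    (hinj : Function.Injective (algebraMap A Ω)) (a : A) (j : ℕ)
    (h : (phi F hF0 hFm Ω).IsIntegralElem (X ^ j * C (algebraMap A Ω a))) :
    ∃ g : A[X], g.Monic ∧ g.eval a = 0 ∧
      ∀ i ≤ g.natDegree, g.coeff (g.natDegree - i) ∈ F (i * j) := by
  obtain ⟨q, hq, he⟩ := h
  have h1 : X ^ j * C (algebraMap A Ω a) = mapRingHom (algebraMap A Ω) (X ^ j * C a) := by simp
  unfold phi at he
  rw [h1, ← hom_eval₂] at he
  have h2 : eval₂ (RR F hF0 hFm).subtype (X ^ j * C a) q = 0 := by
    apply map_injective _ hinj
    rw [Polynomial.map_zero]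
    exact he
  set M := q.natDegree with hM
  set c : ℕ → A := fun i => ((q.coeff i : RR F hF0 hFm) : A[X]).coeff (j * (M - i)) with hcdef
  have hcM : c M = 1 := by
    have : q.coeff M = 1 := hq
    rw [hcdef]
    dsimp only
    rw [this, Nat.sub_self, mul_zero]
    simp
  have hcF : ∀ i, c i ∈ F (j * (M - i)) := fun i => (q.coeff i).2 _
  have hsum : ∑ i ∈ Finset.range (M + 1), c i * a ^ i = 0 := by
    have h3 : (eval₂ (RR F hF0 hFm).subtype (X ^ j * C a) q).coeff (j * M) =
        (0 : A[X]).coeff (j * M) := by rw [h2]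
    rw [eval₂_eq_sum_range, finsetSum_coeff, coeff_zero] at h3
    rw [← h3]
    refine Finset.sum_congr rfl fun i hi => ?_
    have hi' : i ≤ M := by
      have := Finset.mem_range.1 hi
      omega
    have h4 : (X ^ j * C a : A[X]) ^ i = C (a ^ i) * X ^ (j * i) := by
      rw [mul_pow, ← pow_mul, ← C_pow, mul_comm]
    rw [h4, ← mul_assoc, coeff_mul_X_pow', if_pos (Nat.mul_le_mul_left j hi'), coeff_mul_C,
      ← Nat.mul_sub]
    rfl
  set g : A[X] := ∑ i ∈ Finset.range (M + 1), monomial i (c i) with hg
  have hgc : ∀ n, n ≤ M → g.coeff n = c n := by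
    intro n hn
    rw [hg, finsetSum_coeff]
    simp only [coeff_monomial]
    rw [Finset.sum_ite_eq' (Finset.range (M + 1)) n c, if_pos (Finset.mem_range.2 (by omega))]
  have hgd : g.natDegree ≤ M := by
    rw [natDegree_le_iff_coeff_eq_zero]
    intro n hn
    rw [hg, finsetSum_coeff]
    refine Finset.sum_eq_zero fun i hi => ?_
    rw [coeff_monomial, if_neg]
    have := Finset.mem_range.1 hi
    omega
  have hgM : g.coeff M = 1 := by rw [hgc M le_rfl, hcM]
  have hgn : g.natDegree = M :=
    natDegree_eq_of_le_of_coeff_ne_zero hgd (by rw [hgM]; exact one_ne_zero)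
  refine ⟨g, monic_of_natDegree_le_of_coeff_eq_one M hgd hgM, ?_, ?_⟩
  · rw [hg, eval_finsetSum]
    simp only [eval_monomial]
    exact hsum
  · intro i hi
    rw [hgn] at hi ⊢
    rw [hgc _ (by omega)]
    have h5 := hcF (M - i)
    rw [show M - (M - i) = i by omega, mul_comm] at h5
    exact h5

end general

theorem t_TR2 : S_TR2.{u} := by
  intro A B _ _ _ _ _ _ _ _ hinj
  have : FaithfulSMul A B := (faithfulSMul_iff_algebraMap_injective A B).2 hinj
  have : CharZero A := algebraRat.charZero A
  let K := FractionRing A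
  let L := FractionRing B
  let : Algebra K L := FractionRing.liftAlgebra A L
  have : IsScalarTower A K L := FractionRing.isScalarTower_liftAlgebra A L
  have : Algebra.IsIntegral A B := Algebra.IsIntegral.of_finite A B
  have : Algebra.IsAlgebraic A B := inferInstance
  have : FiniteDimensional K L := Module.Finite.of_isLocalization A B A⁰
  have : CharZero K := charZero_of_injective_algebraMap (IsFractionRing.injective A K)
  have hint : ∀ b : B, IsIntegral A (Algebra.trace K L (algebraMap B L b)) := fun b =>
    Algebra.isIntegral_trace (IsIntegral.algebraMap (Algebra.IsIntegral.isIntegral b))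
  have hex : ∀ b : B, ∃ a : A, algebraMap A K a = Algebra.trace K L (algebraMap B L b) := fun b =>
    IsIntegrallyClosed.isIntegral_iff.1 (hint b)
  choose T hT using hex
  have hKinj : Function.Injective (algebraMap A K) := IsFractionRing.injective A K
  let T' : B →ₗ[A] A :=
    { toFun := T
      map_add' := fun x y => hKinj (by rw [map_add, hT, hT, hT, map_add, map_add])
      map_smul' := fun a x => hKinj (by
        rw [RingHom.id_apply, smul_eq_mul, map_mul, hT, hT, Algebra.smul_def, map_mul,
          ← IsScalarTower.algebraMap_apply A B L, IsScalarTower.algebraMap_apply A K L,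
          ← Algebra.smul_def, map_smul, smul_eq_mul]) }
  refine ⟨T', ?_, ?_, ?_⟩
  · have h1 : T 1 = (Module.finrank K L : A) := by
      apply hKinj
      rw [hT, map_one, map_natCast]
      have := Algebra.trace_algebraMap (R := K) (S := L) (1 : K)
      rw [map_one] at this
      rw [this, nsmul_eq_mul, mul_one]
    show IsUnit (T 1)
    rw [h1]
    have h2 : (Module.finrank K L : ℚ) ≠ 0 := by
      have := Module.finrank_pos (R := K) (M := L)
      positivity
    have h3 : IsUnit (algebraMap ℚ A (Module.finrank K L : ℚ)) :=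
      (isUnit_iff_ne_zero.2 h2).map (algebraMap ℚ A)
    rwa [map_natCast] at h3
  · intro p hp b hb
    show T b ∈ p
    let Ω := AlgebraicClosure K
    let C := integralClosure A Ω
    have hker : RingHom.ker (algebraMap A C) ≤ p := by
      intro x hx
      have h1 : algebraMap A C x = 0 := hx
      have h2 : algebraMap A Ω x = 0 := by
        have := congrArg (algebraMap C Ω) h1
        rwa [map_zero, ← IsScalarTower.algebraMap_apply A C Ω] at this
      rw [IsScalarTower.algebraMap_apply A K Ω] at h2
      have h3 : algebraMap A K x = 0 := (map_eq_zero _).1 h2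
      have h4 : x = 0 := hKinj (by rw [h3, map_zero])
      rw [h4]
      exact p.zero_mem
    obtain ⟨Q, hQ, hQp⟩ := Ideal.exists_ideal_over_prime_of_isIntegral_of_isDomain (S := C) p hker
    have hemb : ∀ σ : L →ₐ[K] Ω, ∃ c : C, c ∈ Q ∧ (c : Ω) = σ (algebraMap B L b) := by
      intro σ
      let τ : B →ₐ[A] Ω := (σ.restrictScalars A).comp (IsScalarTower.toAlgHom A B L)
      have hτ : ∀ x, τ x ∈ C := fun x =>
        (Algebra.IsIntegral.isIntegral (R := A) x).map τ
      let τ' : B →ₐ[A] C := τ.codRestrict C hτ
      refine ⟨τ' b, ?_, rfl⟩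
      obtain ⟨N, hN⟩ := hb
      have h1 : p.map (algebraMap A B) ≤ Q.comap (τ' : B →+* C) := by
        rw [Ideal.map_le_iff_le_comap, Ideal.comap_comap]
        intro x hx
        rw [← hQp] at hx
        have h2 : algebraMap A C x ∈ Q := hx
        show (τ' : B →+* C) (algebraMap A B x) ∈ Q
        have h3 : (τ' : B →+* C) (algebraMap A B x) = algebraMap A C x := τ'.commutes x
        rw [h3]
        exact h2
      have h4 : τ' (b ^ N) ∈ Q := h1 hN
      rw [map_pow] at h4
      exact hQ.mem_of_pow_mem N h4
    choose c hcQ hc using hemb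
    have htr : algebraMap A C (T b) = ∑ σ : L →ₐ[K] Ω, c σ := by
      apply Subtype.ext
      have h1 := trace_eq_sum_embeddings (K := K) (L := L) Ω (x := algebraMap B L b)
      rw [← hT] at h1
      have h2 : ((algebraMap A C (T b) : C) : Ω) = algebraMap K Ω (algebraMap A K (T b)) := by
        rw [← IsScalarTower.algebraMap_apply A K Ω]
        rfl
      rw [h2, h1]
      rw [AddSubmonoidClass.coe_finsetSum]
      exact Finset.sum_congr rfl fun σ _ => (hc σ).symm
    have h5 : algebraMap A C (T b) ∈ Q := by
      rw [htr]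
      exact Q.sum_mem fun σ _ => hcQ σ
    rw [← hQp]
    exact h5
  · rintro P j b ⟨f, hf, hfb, hfc⟩
    show WEq A B P j (algebraMap A B (T b))
    let Ω := AlgebraicClosure K
    let F : ℕ → Ideal A := fun k => (P ^ k).comap (algebraMap A B)
    have hF0 : F 0 = ⊤ := by
      show (P ^ 0).comap (algebraMap A B) = ⊤
      rw [pow_zero, Ideal.one_eq_top, Ideal.comap_top]
    have hFm : ∀ i k, F i * F k ≤ F (i + k) := by
      intro i k
      rw [Ideal.mul_le]
      intro x hx y hy
      show algebraMap A B (x * y) ∈ P ^ (i + k)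
      rw [map_mul, pow_add]
      exact Ideal.mul_mem_mul hx hy
    have hΩinj : Function.Injective (algebraMap A Ω) := by
      rw [IsScalarTower.algebraMap_eq A K Ω]
      exact (algebraMap K Ω).injective.comp hKinj
    have hroot : ∀ σ : L →ₐ[K] Ω,
        (phi F hF0 hFm Ω).IsIntegralElem (X ^ j * C (σ (algebraMap B L b))) := by
      intro σ
      refine int_of_W F hF0 hFm Ω f hf j hfc _ ?_
      let τ : B →ₐ[A] Ω := (σ.restrictScalars A).comp (IsScalarTower.toAlgHom A B L)
      have h1 : aeval (τ b) f = τ (aeval b f) := aeval_algHom_apply τ b f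
      rw [hfb, map_zero] at h1
      exact h1
    have htr : algebraMap A Ω (T b) = ∑ σ : L →ₐ[K] Ω, σ (algebraMap B L b) := by
      have h1 := trace_eq_sum_embeddings (K := K) (L := L) Ω (x := algebraMap B L b)
      rw [← hT, ← IsScalarTower.algebraMap_apply A K Ω] at h1
      exact h1
    have hsum : (phi F hF0 hFm Ω).IsIntegralElem (X ^ j * C (algebraMap A Ω (T b))) := by
      rw [htr, map_sum, Finset.mul_sum]
      let : Algebra (RR F hF0 hFm) (Polynomial Ω) := (phi F hF0 hFm Ω).toAlgebra
      have h1 : IsIntegral (RR F hF0 hFm)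
          (∑ σ : L →ₐ[K] Ω, X ^ j * C (σ (algebraMap B L b)) : (Polynomial Ω)) :=
        IsIntegral.sum _ fun σ _ => hroot σ
      exact h1
    obtain ⟨g, hg, hga, hgc⟩ := W_of_int F hF0 hFm Ω hΩinj (T b) j hsum
    refine ⟨g, hg, ?_, hgc⟩
    rw [aeval_algebraMap_apply]
    have h1 : aeval (T b) g = 0 := by
      rw [← hga]
      rfl
    rw [h1, map_zero]

end Pool.Agent.Y177.DR.TR2
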