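import Pool.Agent.Y808.DR.Stm2

/-!
# The descent argument with the Euler derivation
-/

set_option autoImplicit false

namespace Pool.Agent.Y177.DR

open IsLocalRing Pool.Agent.Y808.DR

universe u

theorem exists_pow_le_map (A B : Type u) [CommRing A] [CommRing B] [IsLocalRing A] [IsLocalRing B]
    [IsNoetherianRing B] [Algebra A B] [Module.Finite A B] :
    ∃ M : ℕ, maximalIdeal B ^ M ≤ (maximalIdeal A).map (algebraMap A B) := by
  apply Ideal.exists_pow_le_of_le_radical_of_fg
  · rw [Ideal.radical_eq_sInf]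
    refine le_sInf ?_
    rintro Q ⟨hQ, hQp⟩
    have h1 : maximalIdeal A ≤ Q.comap (algebraMap A B) := Ideal.map_le_iff_le_comap.1 hQ
    have h2 : (Q.comap (algebraMap A B)).IsPrime := hQp.comap _
    have h3 : Q.comap (algebraMap A B) = maximalIdeal A :=
      le_antisymm (IsLocalRing.le_maximalIdeal h2.ne_top) h1
    have h4 : (Q.comap (algebraMap A B)).IsMaximal := by rw [h3]; infer_instance
    have h5 : Q.IsMaximal := by
      have : Algebra.IsIntegral A B := inferInstance
      exact Ideal.isMaximal_of_isIntegral_of_isMaximal_comap Q h4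
    exact (IsLocalRing.eq_maximalIdeal h5).ge
  · exact (maximalIdeal B).fg_of_isNoetherianRing

/-- the trace is continuous -/
theorem trace_cont {A B : Type u} [CommRing A] [CommRing B] [IsLocalRing A] [IsLocalRing B]
    [IsNoetherianRing B] [Algebra A B] [Module.Finite A B] (T : B →ₗ[A] A) (s : ℕ) :
    ∃ N : ℕ, ∀ b ∈ maximalIdeal B ^ N, T b ∈ maximalIdeal A ^ s := by
  obtain ⟨M, hM⟩ := exists_pow_le_map A B
  refine ⟨M * s, fun b hb => ?_⟩
  have h1 : b ∈ (maximalIdeal A ^ s).map (algebraMap A B) := by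
    rw [pow_mul] at hb
    rw [Ideal.map_pow]
    exact Ideal.pow_right_mono hM s hb
  have h2 : b ∈ (maximalIdeal A ^ s) • (⊤ : Submodule A B) := by
    rw [Ideal.smul_top_eq_map]
    exact h1
  refine Submodule.smul_induction_on h2 (fun r hr x _ => ?_) (fun x y hx hy => ?_)
  · rw [map_smul, smul_eq_mul]
    exact Ideal.mul_mem_right _ _ hr
  · rw [map_add]
    exact add_mem hx hy

/-- the Euler derivation on the powers -/
theorem euler_pow {B : Type u} [CommRing B] (P J : Ideal B) (θ : Derivation ℤ B (B ⧸ J))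
    (h0 : ∀ b : B, θ b ∈ P.map (Ideal.Quotient.mk J))
    (h1 : ∀ x ∈ P, θ x - Ideal.Quotient.mk J x ∈ (P ^ 2).map (Ideal.Quotient.mk J)) (j : ℕ) :
    ∀ x ∈ P ^ j, θ x - (j : B ⧸ J) * Ideal.Quotient.mk J x ∈
      (P ^ (j + 1)).map (Ideal.Quotient.mk J) := by
  induction j with
  | zero =>
    intro x _
    rw [Nat.cast_zero, zero_mul, sub_zero, zero_add, pow_one]
    exact h0 x
  | succ j ih =>
    intro x hx
    rw [pow_succ] at hx
    refine Submodule.mul_induction_on hx (fun x hx y hy => ?_) (fun x y hx hy => ?_)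
    · have e1 : θ (x * y) = Ideal.Quotient.mk J x * θ y + Ideal.Quotient.mk J y * θ x := by
        rw [Derivation.leibniz, Algebra.smul_def, Algebra.smul_def]
        rfl
      have e2 : θ (x * y) - ((j + 1 : ℕ) : B ⧸ J) * Ideal.Quotient.mk J (x * y) =
          Ideal.Quotient.mk J x * (θ y - Ideal.Quotient.mk J y) +
          Ideal.Quotient.mk J y * (θ x - (j : B ⧸ J) * Ideal.Quotient.mk J x) := by
        rw [e1, map_mul]
        push_cast
        ring
      rw [e2]
      refine add_mem ?_ ?_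
      · have h2 : Ideal.Quotient.mk J x * (θ y - Ideal.Quotient.mk J y) ∈
            (P ^ j).map (Ideal.Quotient.mk J) * (P ^ 2).map (Ideal.Quotient.mk J) :=
          Ideal.mul_mem_mul (Ideal.mem_map_of_mem _ hx) (h1 y hy)
        rw [← Ideal.map_mul, ← pow_add] at h2
        exact h2
      · have h2 : Ideal.Quotient.mk J y * (θ x - (j : B ⧸ J) * Ideal.Quotient.mk J x) ∈
            P.map (Ideal.Quotient.mk J) * (P ^ (j + 1)).map (Ideal.Quotient.mk J) :=
          Ideal.mul_mem_mul (Ideal.mem_map_of_mem _ hy) (ih x hx)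
        rw [← Ideal.map_mul, ← pow_succ'] at h2
        exact h2
    · have e1 : θ (x + y) - ((j + 1 : ℕ) : B ⧸ J) * Ideal.Quotient.mk J (x + y) =
          (θ x - ((j + 1 : ℕ) : B ⧸ J) * Ideal.Quotient.mk J x) +
          (θ y - ((j + 1 : ℕ) : B ⧸ J) * Ideal.Quotient.mk J y) := by
        rw [map_add, map_add]
        ring
      rw [e1]
      exact add_mem hx hy

/-- the derivation on the square of the maximal ideal -/
theorem euler_sq {A B : Type u} [CommRing A] [CommRing B] [IsLocalRing A] [Algebra A B]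
    (T : B →ₗ[A] A) (p : Ideal A) (P J : Ideal B) (hTP : ∀ b ∈ P, T b ∈ p)
    (θ : Derivation ℤ B (B ⧸ J)) (h0 : ∀ b : B, θ b ∈ P.map (Ideal.Quotient.mk J)) (a : A)
    (ha : a ∈ maximalIdeal A ^ 2) :
    ∃ b : B, Ideal.Quotient.mk J b = θ (algebraMap A B a) ∧ T b ∈ maximalIdeal A * p := by
  have hlift : ∀ b : B, ∃ x ∈ P, Ideal.Quotient.mk J x = θ b := fun b =>
    (Ideal.mem_map_iff_of_surjective _ Ideal.Quotient.mk_surjective).1 (h0 b)
  rw [pow_two] at ha
  refine Submodule.mul_induction_on ha (fun y hy z hz => ?_) (fun x y hx hy => ?_)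
  · obtain ⟨by', hby, eby⟩ := hlift (algebraMap A B y)
    obtain ⟨bz, hbz, ebz⟩ := hlift (algebraMap A B z)
    refine ⟨y • bz + z • by', ?_, ?_⟩
    · rw [map_mul, Derivation.leibniz, Algebra.smul_def, Algebra.smul_def, Algebra.smul_def,
        Algebra.smul_def, map_add, map_mul, map_mul, eby, ebz]
      rfl
    · rw [map_add, map_smul, map_smul, smul_eq_mul, smul_eq_mul]
      exact add_mem (Ideal.mul_mem_mul hy (hTP bz hbz)) (Ideal.mul_mem_mul hz (hTP by' hby))
  · obtain ⟨b1, e1, h1⟩ := hx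
    obtain ⟨b2, e2, h2⟩ := hy
    refine ⟨b1 + b2, ?_, ?_⟩
    · rw [map_add, map_add, map_add, e1, e2]
    · rw [map_add]
      exact add_mem h1 h2

/-- Krull -/
theorem krull {A : Type u} [CommRing A] [IsLocalRing A] [IsNoetherianRing A] (I : Ideal A) (a : A)
    (h : ∀ s : ℕ, 2 ≤ s → ∃ x ∈ I, ∃ y ∈ maximalIdeal A ^ s, a = x + y) : a ∈ I := by
  have h1 : (Submodule.Quotient.mk a : A ⧸ I) ∈
      (⨅ i : ℕ, maximalIdeal A ^ i • (⊤ : Submodule A (A ⧸ I))) := by
    rw [Submodule.mem_iInf]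
    intro i
    obtain ⟨x, hx, y, hy, e⟩ := h (i + 2) (by omega)
    have hy' : y ∈ maximalIdeal A ^ i := Ideal.pow_le_pow_right (by omega) hy
    have e1 : (Submodule.Quotient.mk a : A ⧸ I) = y • (Submodule.Quotient.mk (1 : A) : A ⧸ I) := by
      rw [← Submodule.Quotient.mk_smul, smul_eq_mul, mul_one, Submodule.Quotient.eq, e]
      simpa using hx
    rw [e1]
    exact Submodule.smul_mem_smul hy' Submodule.mem_top
  rw [Ideal.iInf_pow_smul_eq_bot_of_isLocalRing _ (maximalIdeal.isMaximal A).ne_top,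
    Submodule.mem_bot, Submodule.Quotient.mk_eq_zero] at h1
  exact h1

/-- DES with the additional hypothesis that `p` is mapped into `P` -/
theorem t_DES : ∀ (A B : Type u) [CommRing A] [CommRing B] [IsRegularLocalRing A]
    [IsRegularLocalRing B] [Algebra ℚ B] [Algebra A B] [Module.Finite A B] (T : B →ₗ[A] A)
    (p : Ideal A) (P : Ideal B), p.IsPrime → IsUnit (T 1) → P ≠ ⊤ →
    (∀ a ∈ p, algebraMap A B a ∈ P) →
    (∀ a : A, algebraMap A B a ∈ P → a ∈ p) →
    (∀ j : ℕ, ∀ b ∈ P ^ j, algebraMap A B (T b) ∈ P ^ j) →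
    (∀ b ∈ P, T b ∈ p) →
    (∀ N : ℕ, ∃ θ : Derivation ℤ B (B ⧸ maximalIdeal B ^ N),
      (∀ b : B, θ b ∈ P.map (Ideal.Quotient.mk (maximalIdeal B ^ N))) ∧
      (∀ x ∈ P, θ x - Ideal.Quotient.mk (maximalIdeal B ^ N) x ∈
        (P ^ 2).map (Ideal.Quotient.mk (maximalIdeal B ^ N)))) →
    p ⊓ maximalIdeal A ^ 2 ≤ maximalIdeal A * p := by
  intro A B _ _ _ _ _ _ _ T p P hp hT1 hP hpP _ hTj hTP hθ a ha
  have hTa : ∀ x : A, T (algebraMap A B x) = x * T 1 := by
    intro x
    rw [Algebra.algebraMap_eq_smul_one, map_smul, smul_eq_mul]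
  have hmn : ∀ x ∈ maximalIdeal A, algebraMap A B x ∈ maximalIdeal B := by
    have h1 : ((maximalIdeal B).comap (algebraMap A B)).IsMaximal :=
      Ideal.isMaximal_comap_of_isIntegral_of_isMaximal (maximalIdeal B)
    have h2 : (maximalIdeal B).comap (algebraMap A B) = maximalIdeal A := eq_maximalIdeal h1
    intro x hx
    rw [← h2] at hx
    exact hx
  have hunit : ∀ j : ℕ, j ≠ 0 → IsUnit (j : A) := by
    intro j hj
    by_contra hcon
    have h1 := hmn (j : A) ((mem_maximalIdeal _).2 hcon)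
    rw [map_natCast] at h1
    have h2 : IsUnit ((j : B)) := by
      have : IsUnit ((j : ℚ)) := isUnit_iff_ne_zero.2 (by exact_mod_cast hj)
      have h3 := this.map (algebraMap ℚ B)
      rwa [map_natCast] at h3
    exact (mem_maximalIdeal _).1 h1 h2
  have hpm : p ≤ maximalIdeal A := le_maximalIdeal hp.ne_top
  have hPn : P ≤ maximalIdeal B := le_maximalIdeal hP
  apply krull
  intro s hs
  obtain ⟨N, hN⟩ := trace_cont T s
  obtain ⟨θ, h0, h1⟩ := hθ N
  have claim : ∀ j : ℕ, ∃ a1 ∈ maximalIdeal A * p, ∃ a2, algebraMap A B a2 ∈ P ^ j ∧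
      ∃ a3 ∈ maximalIdeal A ^ s, a = a1 + a2 + a3 := by
    intro j
    induction j with
    | zero =>
      refine ⟨0, zero_mem _, a, ?_, 0, zero_mem _, by ring⟩
      rw [pow_zero, Ideal.one_eq_top]
      exact Submodule.mem_top
    | succ j ih =>
      rcases Nat.eq_zero_or_pos j with hj | hj
      · subst hj
        refine ⟨0, zero_mem _, a, ?_, 0, zero_mem _, by ring⟩
        rw [zero_add, pow_one]
        exact hpP a ha.1
      · obtain ⟨a1, ha1, a2, ha2, a3, ha3, e⟩ := ih
        have ha2m : a2 ∈ maximalIdeal A ^ 2 := by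
          have e2 : a2 = a - a1 - a3 := by rw [e]; ring
          rw [e2]
          refine sub_mem (sub_mem ha.2 ?_) (Ideal.pow_le_pow_right hs ha3)
          rw [pow_two]
          exact Ideal.mul_mono_right hpm ha1
        obtain ⟨b, eb, hb⟩ := euler_sq T p P _ hTP θ h0 a2 ha2m
        obtain ⟨b1, hb1, eb1⟩ := (Ideal.mem_map_iff_of_surjective _
          Ideal.Quotient.mk_surjective).1 (euler_pow P _ θ h0 h1 j _ ha2)
        have h2 : b - (j : B) * algebraMap A B a2 - b1 ∈ maximalIdeal B ^ N := by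
          rw [← Ideal.Quotient.eq_zero_iff_mem, map_sub, map_sub, map_mul, map_natCast, eb, eb1]
          ring
        have h3 := hN _ h2
        have e3 : T (b - (j : B) * algebraMap A B a2 - b1) =
            T b - (j : A) * T 1 * a2 - T b1 := by
          rw [map_sub, map_sub]
          congr 2
          have : (j : B) * algebraMap A B a2 = algebraMap A B ((j : A) * a2) := by
            rw [map_mul, map_natCast]
          rw [this, hTa]
          ring
        rw [e3] at h3
        obtain ⟨w, hw⟩ := ((hunit j (by omega)).mul hT1).exists_right_inv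
        refine ⟨a1 + w * T b, add_mem ha1 (Ideal.mul_mem_left _ _ hb), - (w * T b1), ?_,
          a3 - w * (T b - (j : A) * T 1 * a2 - T b1),
          sub_mem ha3 (Ideal.mul_mem_left _ _ h3), ?_⟩
        · rw [map_neg, map_mul]
          exact neg_mem (Ideal.mul_mem_left _ _ (hTj (j + 1) b1 hb1))
        · rw [e]
          linear_combination (-a2) * hw
  obtain ⟨a1, ha1, a2, ha2, a3, ha3, e⟩ := claim N
  refine ⟨a1, ha1, a2 + a3, add_mem ?_ ha3, by rw [e]; ring⟩
  have h4 := hN _ (Ideal.pow_right_mono hPn N ha2)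
  rw [hTa] at h4
  obtain ⟨w, hw⟩ := hT1.exists_right_inv
  have h5 : a2 = w * (a2 * T 1) := by linear_combination (-a2) * hw
  rw [h5]
  exact Ideal.mul_mem_left _ _ h4

end Pool.Agent.Y177.DR
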